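import Pool.Agent.H30.PolA

set_option autoImplicit false

namespace Pool.Agent.Results.MP_7b7e09_gt.Compact

open Pool.Agent.H30.Tau Set MeasureTheory

/-- The unit interval has the polarized partition property but fails `S₁(Ω, Ω)`. -/
theorem result : Pol (Icc (0 : ℝ) 1) ∧ ¬ S1 (Z := Icc (0 : ℝ) 1) Om Om := by
  refine ⟨pol_cpt, fun h => ?_⟩
  obtain ⟨ε, ε1, ε2⟩ := ENNReal.exists_pos_sum_of_countable one_ne_zero ℕ
  obtain ⟨U, U1, U2⟩ := h (fun n => {U : Set unitInterval | IsOpen U ∧ volume U < ε n}) fun n =>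
    om_of (fun _ h => h.1) (fun e => (e.2.trans_le (ENNReal.le_tsum n)).not_ge
      (ε2.le.trans measure_univ.ge)) fun F hF =>
      let ⟨U, e1, e2, e3⟩ := F.exists_isOpen_lt_of_lt (μ := volume) (ε n)
        (by rw [hF.measure_zero]; exact_mod_cast ε1 n)
      ⟨U, ⟨e2, e3⟩, e1⟩
  have e : (volume : Measure unitInterval) univ ≤ ∑' n, volume (U n) := by
    rw [← U2.1.2.2, sUnion_range]
    exact measure_iUnion_le U
  exact ε2.not_ge (measure_univ.ge.trans (e.trans (ENNReal.tsum_le_tsum fun n => (U1 n).2.le)))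

end Pool.Agent.Results.MP_7b7e09_gt.Compact
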