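import Pool.Agent.H30.PolA

set_option autoImplicit false

namespace Pool.Agent.Results.MP_7b7e09_gt.Crit

open Pool.Agent.H30.Tau Pool.Agent.H30.Mt Cardinal Set

/-- The critical cardinality of the polarized partition property is `min {𝔡, 𝔲}`. -/
theorem result :
    IsLeast {κ : Cardinal.{0} | ∃ X : Set ℝ, ¬ Pol X ∧ #X = κ} (min dNum uNum) := by
  obtain ⟨e, he⟩ := exists_emb
  have h1 : min dNum uNum ∈ lowerBounds {κ : Cardinal.{0} | ∃ X : Set ℝ, ¬ Pol X ∧ #X = κ} := by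
    rintro _ ⟨X, h, rfl⟩
    exact not_lt.1 fun hc => h (pol_of_lt (lt_min_iff.1 hc).1 (lt_min_iff.1 hc).2)
  have h2 : ∀ X : Set (ℕ → ℕ), ¬ Pol X → ¬ Pol (e '' X) := fun X h h' =>
    h (h'.tr (he.homeomorphImage X).symm)
  refine ⟨?_, h1⟩
  obtain ⟨X, X1, X2⟩ : ∃ X : Set (ℕ → ℕ), #X ≤ min dNum uNum ∧ ¬ Pol X := by
    rcases le_total dNum uNum with h | h
    · rw [min_eq_left h]; exact not_pol_d
    · rw [min_eq_right h]; exact not_pol_u
  exact ⟨e '' X, h2 X X2, le_antisymm (mk_image_le.trans X1) (h1 ⟨_, h2 X X2, rfl⟩)⟩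

end Pool.Agent.Results.MP_7b7e09_gt.Crit
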